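import Pool.Agent.H93.SP.Asm
import Pool.Agent.H93.SP.AsmRE
import Pool.Agent.H93.SP.Bridge
import Pool.Agent.H93.SP.Hur1
import Pool.Agent.H93.SP.SPT
import Pool.Agent.H48.SP.AF
import Pool.Agent.H56.SP.AV
import Pool.Agent.H48.SP.AX
import Pool.Agent.H90.SP.BC
import Pool.Agent.H90.SP.Cube
import Pool.Agent.H81.SP.D2
import Pool.Agent.H90.SP.D3
import Pool.Agent.H90.SP.EH
import Pool.Agent.H81.SP.FIN
import Pool.Agent.H29.SP.HUR3
import Pool.Agent.H33.SP.INJ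
import Pool.Agent.H90.SP.JC
import Pool.Agent.H67.SP.KP
import Pool.Agent.H29.SP.MN
import Pool.Agent.H48.SP.MVP
import Pool.Agent.H33.SP.OM
import Pool.Agent.H48.SP.PF
import Pool.Agent.H81.SP.QH
import Pool.Agent.H81.SP.SC
import Pool.Agent.H29.SP.SPAN
import Pool.Agent.H33.SP.SPH
import Pool.Agent.H81.SP.SUR
import Pool.Agent.H81.SP.SUR3
import Pool.Agent.H67.SP.SW
import Pool.Agent.H29.SP.TRB1
import Pool.Agent.H39.SP.TRB
import Pool.Agent.H48.SP.TRH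
import Pool.Agent.H39.SP.TRMV
import Pool.Agent.H27.SPB.TRSP
import Pool.Agent.H39.SP.TRU


/-!
# Assembly of the block of symmetric products
-/

open Topology Set
open Pool.Agent.H59
open Pool.Agent.H64.LB

namespace Pool.Agent.H64.Fin

theorem re_of (hHM : Pool.Agent.H64.LB.T_HM) (hMVS : Pool.Agent.H64.LB.T_MVS)
    (hCS : Pool.Agent.H64.LB.T_CS) (hDI : Pool.Agent.H64.LB.T_DI)
    (hSCO : Pool.Agent.H64.LB.T_SCO) (hRW : Pool.Agent.H93.SPB.T_RW) :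
    Pool.Agent.H93.SPB.T_RE := by
  have hi := Pool.Agent.H93.SPB.hi hHM
  have mv := Pool.Agent.H93.SPB.mv hMVS
  have cs := Pool.Agent.H93.SPB.cs hCS
  have h0 := Pool.Agent.H93.SPB.h0 hDI
  have lc0 := Pool.Agent.H93.SPB.lc0 hDI hHM
  have mvp := Pool.Agent.H48.SP.MVP.mvp mv
  have af := Pool.Agent.H48.SP.AF.af mvp hi
  have av := Pool.Agent.H56.SP.AV.av mvp hi h0 lc0
  have ax := Pool.Agent.H48.SP.AX.ax mvp hi av
  have trmv := Pool.Agent.H39.SP.trmv mv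
  have tru := Pool.Agent.H39.SP.tru trmv cs
  have trb1 := Pool.Agent.H29.SP.TRB1.trb1 lc0 h0
  have trl := Pool.Agent.H93.SPB.trl tru trb1 Pool.Agent.H39.SP.trb2 Pool.Agent.H39.SP.trb3
  have tro := Pool.Agent.H27.SPB.tro trl
  have kp := Pool.Agent.H67.SPM.KP.kp mvp hi Pool.Agent.H33.SP.OM.om
  have fin := Pool.Agent.H81.SP.fin tro kp Pool.Agent.H29.SP.SPAN.span af
  have hpc : Pool.Agent.H93.SPB.T_PC := by
    have s1 : SimplyConnectedSpace (OO 3) := hSCO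
    exact (inferInstance : PathConnectedSpace (OO 3))
  have sw := Pool.Agent.H67.SPM.SW.sw mvp hi
  have sur := Pool.Agent.H81.SP.sur tro kp Pool.Agent.H29.SP.SPAN.span sw
    Pool.Agent.H33.SP.SPH.add hpc hi
  have sur3 := Pool.Agent.H81.SP.sur3 tro kp Pool.Agent.H29.SP.SPAN.span ax
    Pool.Agent.H33.SP.SPH.add hpc hi
  have trh := Pool.Agent.H48.SP.TRH.trh Pool.Agent.H33.SP.SPH.sph hi
  have tp := Pool.Agent.H93.SPB.tp hi Pool.Agent.H33.SP.SPH.sph tro trh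
    Pool.Agent.H33.SP.INJ.inj sur sur3 fin
  have hur1 := Pool.Agent.H93.SPB.hur1 Pool.Agent.H90.SP.jc Pool.Agent.H29.SP.MN.mn
    Pool.Agent.H81.SP.d2 Pool.Agent.H90.SP.d3 Pool.Agent.H90.SP.eh
  exact Pool.Agent.H93.SPB.re tp hur1 Pool.Agent.H29.SP.HUR3.hur3 Pool.Agent.H48.SP.PF.pf
    Pool.Agent.H81.SP.qh Pool.Agent.H81.SP.sc Pool.Agent.H90.SP.bc hRW

end Pool.Agent.H64.Fin
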