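import Pool.Agent.H64.LB.Final
import Pool.Agent.H64.LB.Util
import Pool.Agent.H64.LB.TE
import Pool.Agent.H64.LB.OM3
import Pool.Agent.H24.LB.CHT
import Pool.Agent.H2.LB.COH
import Pool.Agent.H2.LB.HD
import Pool.Agent.H2.LB.REH
import Pool.Agent.H4.LB.S2H
import Pool.Agent.H4.LB.SU1
import Pool.Agent.H19.LB.SCO
import Pool.Agent.H19.LB.SCP
import Pool.Agent.H19.LB.SCS
import Pool.Agent.H19.LB.SEC
import Pool.Agent.H24.LB.PL1
import Pool.Agent.H24.LB.PNT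
import Pool.Agent.H24.LB.RGA
import Pool.Agent.H24.LB.RGG
import Pool.Agent.H24.LB.SEG
import Pool.Agent.H27.LB.CUB
import Pool.Agent.H27.LB.TRI
import Pool.Agent.H27.LB.VK
import Pool.Agent.H52.LB.Dq
import Pool.Agent.H52.LB.Eps
import Pool.Agent.H52.LB.Irr
import Pool.Agent.H52.LB.Xx
import Pool.Agent.H54.LB.HQF
import Pool.Agent.H54.LB.QSE
import Pool.Agent.H54.LB.S2E
import Pool.Agent.H54.LB.SCH
import Pool.Agent.H54.LB.SU0
import Pool.Agent.H54.LB.SUSP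
import Pool.Agent.H63.LB.PLF
import Pool.Agent.H63.LB.PLG
import Pool.Agent.H70.LB.CS
import Pool.Agent.H70.LB.HM
import Pool.Agent.H70.LB.MV
import Pool.Agent.H70.LB.MVS
import Pool.Agent.H79.LB.PHAM
import Pool.Agent.H79.LB.ZED
import Pool.Agent.H80.LB.RGJ
import Pool.Agent.H88.LB.INF

import Pool.Agent.H64.Fin.RE
import Pool.Agent.H93.SP.SPT

/-!
# Assembly: the goal from the last targets
-/

open Topology Set
open Pool.Agent.H59
open Pool.Agent.H64.LB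

namespace Pool.Agent.H64.Fin

theorem goal_of (hSM : T_SM) (hHI : T_HI) (hHDB : T_HDB) (hRW : Pool.Agent.H93.SPB.T_RW) :
    Goal := by
  have hMV := Pool.Agent.H70.LB.mv hSM
  have hHM := Pool.Agent.H70.LB.hm hHI
  have hDI := Pool.Agent.H70.LB.di
  have hCON := Pool.Agent.H70.LB.con hHM hDI
  have hCS := Pool.Agent.H70.LB.cs
  have hDU := Pool.Agent.H70.LB.du hMV
  have hH0 := Pool.Agent.H70.LB.h0 hDI
  have hMVS := Pool.Agent.H70.LB.mvs hMV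
  have hTRI := Pool.Agent.H27.LB.tri'
  have hVK := Pool.Agent.H27.LB.vk
  have hSEC := Pool.Agent.H19.LB.sec hTRI hDU hHM
  have hSU0 := Pool.Agent.H54.LB.su0 hDU hHM
  have hSU1 := Pool.Agent.H4.LB.su1 hMV hHM
  have hSUSP := Pool.Agent.H54.LB.susp hSU0 hSU1
  have hS2E := Pool.Agent.H54.LB.s2e
  have hS2H := Pool.Agent.H4.LB.s2h hSUSP hS2E hHM hCON hH0
  have hOM := om hMV hSEC hS2H hS2E hCON hHM hDU
  have hPHAM := Pool.Agent.H79.LB.pham Pool.Agent.H27.LB.cub Pool.Agent.H79.LB.zed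
  have hSCS := Pool.Agent.H19.LB.scs hVK
  have hSCO := Pool.Agent.H19.LB.sco hTRI hVK hSCS
  have hSCP := Pool.Agent.H19.LB.scp Pool.Agent.H63.LB.PLF.plf'
  have hMUL := mul hOM hPHAM Pool.Agent.H54.LB.qse hHM
  have hTE := te hMV Pool.Agent.H88.LB.INF.inf hOM hPHAM hSUSP hS2H hHM
  have hJH := jh hTE Pool.Agent.H24.LB.pl1
  have hRGJ := Pool.Agent.H80.LB.rgj Pool.Agent.H24.LB.cht Pool.Agent.H24.LB.seg
    Pool.Agent.H52.LB.dq Pool.Agent.H24.LB.pl1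
  have hRGG := Pool.Agent.H24.LB.rgg Pool.Agent.H52.LB.xx
  have hRE := re_of hHM hMVS hCS hDI hSCO hRW
  have hSPT := Pool.Agent.H93.SPB.spt hRE Pool.Agent.H2.LB.coh_thm hPHAM hSCP hSCO
    Pool.Agent.H54.LB.sch
  exact goal_of_targets Pool.Agent.H24.LB.cht Pool.Agent.H52.LB.xx Pool.Agent.H52.LB.irr
    Pool.Agent.H52.LB.dq Pool.Agent.H24.LB.seg Pool.Agent.H52.LB.eps hRGJ hRGG hSPT hMUL hJH
    Pool.Agent.H2.LB.coh_thm Pool.Agent.H2.LB.reh Pool.Agent.H2.LB.hdn hHDB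
    Pool.Agent.H2.LB.hdf

end Pool.Agent.H64.Fin
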