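import Pool.Agent.H64.Fin.FA
import Pool.Agent.H64.Fin.LA
import Pool.Agent.H15.LB.HD1
import Pool.Agent.H52.LB.Hi
import Pool.Agent.H52.LB.Sm

/-!
# The goal
-/

open Pool.Agent.H64.LB

namespace Pool.Agent.H64.Fin

theorem goal_thm : Goal := by
  have hHI := Pool.Agent.H52.LB.hi
  have hHM := Pool.Agent.H70.LB.hm hHI
  have hCON := Pool.Agent.H70.LB.con hHM Pool.Agent.H70.LB.di
  have hRW := rw_thm hHI hHM Pool.Agent.H70.LB.di hCON
  exact goal_of Pool.Agent.H52.LB.sm hHI (Pool.Agent.H15.LB.hdb Pool.Agent.H15.LB.hd1) hRW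

end Pool.Agent.H64.Fin
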