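import Pool.Agent.H64.FB.CEN
import Pool.Agent.H64.FB.HU1
import Pool.Agent.H48.SP.PF
import Pool.Agent.H97.LB.ACE
import Pool.Agent.H97.LB.FV
import Pool.Agent.H97.LB.VEE
import Pool.Agent.H97.LB.VEZ
import Pool.Agent.H93.FB.Asm
import Pool.Agent.H93.FB.Top
import Pool.Agent.H56.FB.COV
import Pool.Agent.H56.FB.CUR
import Pool.Agent.H56.FB.FHC
import Pool.Agent.H92.LB.Cv
import Pool.Agent.H89.FB.CVL
import Pool.Agent.H89.FB.CVP
import Pool.Agent.H4.FB.DH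
import Pool.Agent.H4.FB.PHI
import Pool.Agent.H4.FB.THE
import Pool.Agent.H90.FB.EEC
import Pool.Agent.H73.FB.EX
import Pool.Agent.H73.FB.FPC

/-!
# Assembly of the block on homotopy fibres
-/

open Topology Set
open Pool.Agent.H59

namespace Pool.Agent.H64.Fin

open Pool.Agent.H64.LB (T_HI T_HM T_DI T_CON)

theorem rw_thm (hHI : T_HI) (hHM : T_HM) (hDI : T_DI) (hCON : T_CON) :
    Pool.Agent.H93.SPB.T_RW := by
  have hSTF := Pool.Agent.H92.LB.stf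
  have hCVS := Pool.Agent.H92.LB.cvs
  have hCVK := Pool.Agent.H92.LB.cvk
  have hCVP := Pool.Agent.H89.FB.cvp Pool.Agent.H89.FB.cvl
  have hCOV := Pool.Agent.H56.FB.COV.cov Pool.Agent.H64.FB.hu1 Pool.Agent.H64.FB.cen hCVK hCVS
    hCVP
  have hFPC := Pool.Agent.H73.FB.fpc hSTF
  have hFHC := Pool.Agent.H56.FB.FHC.fhc hSTF
  have hCUR := Pool.Agent.H56.FB.CUR.cur hSTF
  have hEX := Pool.Agent.H73.FB.ex hSTF
  have hACE := Pool.Agent.H97.LB.ace hHI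
  have hTHE := Pool.Agent.H4.FB.the hHM
  have hVEE := Pool.Agent.H97.LB.vee_main hHM
  have hVEZ := Pool.Agent.H97.LB.vez hHM hDI
  have hFV := Pool.Agent.H97.LB.fv Pool.Agent.H93.FB.top hACE Pool.Agent.H4.FB.phi
    Pool.Agent.H4.FB.dh hTHE hVEE hVEZ
  have hACFF := Pool.Agent.H93.FB.acff hFPC hFV Pool.Agent.H90.FB.eec hHM hCVS hDI
  have hTC := Pool.Agent.H93.FB.tc hFPC hFV Pool.Agent.H90.FB.eec hCON hDI
  exact Pool.Agent.H64.FB.rw_of Pool.Agent.H64.FB.hu1 Pool.Agent.H64.FB.cen hCOV hTC hFPC hFHC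
    hCUR hACFF hEX Pool.Agent.H48.SP.PF.pf

end Pool.Agent.H64.Fin
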